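import Pool.Agent.helper81.PL.SpecA

set_option autoImplicit false
set_option linter.dupNamespace false
set_option linter.unusedVariables false

namespace Pool.Agent.helper81.PL

open Pool.Agent.helper62 Prog Function

/-- Four stacks `b, ..., b + 3` with given contents, the others as in `S`. -/
def PAR_st (S : ℕ → List Bool) (b : ℕ) (w0 w1 w2 w3 : List Bool) : ℕ → List Bool := fun i =>
  if i = b then w0 else if i = b + 1 then w1 else if i = b + 2 then w2 else
    if i = b + 3 then w3 else S i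

lemma PAR_0 (S : ℕ → List Bool) (b : ℕ) (w0 w1 w2 w3 : List Bool) :
    PAR_st S b w0 w1 w2 w3 b = w0 := by simp [PAR_st]

lemma PAR_1 (S : ℕ → List Bool) (b : ℕ) (w0 w1 w2 w3 : List Bool) :
    PAR_st S b w0 w1 w2 w3 (b + 1) = w1 := by simp [PAR_st]

lemma PAR_2 (S : ℕ → List Bool) (b : ℕ) (w0 w1 w2 w3 : List Bool) :
    PAR_st S b w0 w1 w2 w3 (b + 2) = w2 := by simp [PAR_st]

lemma PAR_3 (S : ℕ → List Bool) (b : ℕ) (w0 w1 w2 w3 : List Bool) :
    PAR_st S b w0 w1 w2 w3 (b + 3) = w3 := by simp [PAR_st]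

lemma PAR_u0 (S : ℕ → List Bool) (b : ℕ) (w0 w1 w2 w3 w : List Bool) :
    update (PAR_st S b w0 w1 w2 w3) b w = PAR_st S b w w1 w2 w3 := by
  funext i
  by_cases h : i = b
  · subst h; simp [PAR_st]
  · simp [PAR_st, h]

lemma PAR_u1 (S : ℕ → List Bool) (b : ℕ) (w0 w1 w2 w3 w : List Bool) :
    update (PAR_st S b w0 w1 w2 w3) (b + 1) w = PAR_st S b w0 w w2 w3 := by
  funext i
  by_cases h : i = b + 1
  · subst h; simp [PAR_st]
  · simp [PAR_st, h]

lemma PAR_u2 (S : ℕ → List Bool) (b : ℕ) (w0 w1 w2 w3 w : List Bool) :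
    update (PAR_st S b w0 w1 w2 w3) (b + 2) w = PAR_st S b w0 w1 w w3 := by
  funext i
  by_cases h : i = b + 2
  · subst h; simp [PAR_st]
  · simp [PAR_st, h]

lemma PAR_u3 (S : ℕ → List Bool) (b : ℕ) (w0 w1 w2 w3 w : List Bool) :
    update (PAR_st S b w0 w1 w2 w3) (b + 3) w = PAR_st S b w0 w1 w2 w := by
  funext i
  by_cases h : i = b + 3
  · subst h; simp [PAR_st]
  · simp [PAR_st, h]

theorem PAR (hD : DUP_stmt) : PAR_stmt := by
  refine ⟨30, ?_⟩
  intro α β γ _ _ _ f g t t' hf hg b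
  obtain ⟨p, hp⟩ := hf (b + 1)
  obtain ⟨q, hq⟩ := hg (b + 2)
  refine ⟨.seq (dup b (b + 1)) (.seq p (.seq (dup b (b + 2)) (.seq q (.seq (clear b)
    (.seq (pour (b + 2) (b + 3)) (.seq (pour (b + 3) b) (.seq (pour (b + 1) (b + 3))
    (.seq (pour (b + 3) b) (.push b true))))))))), fun a S hS hi => ?_⟩
  have e0 : S = PAR_st S b (cd a) [] [] [] := by
    funext i
    simp only [PAR_st]
    split_ifs with h1 h2 h3 h4
    · rw [h1, hS]
    · exact hi i (by omega)
    · exact hi i (by omega)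
    · exact hi i (by omega)
    · rfl
  have s1 : Runs (dup b (b + 1)) S (PAR_st S b (cd a) (cd a) [] []) (8 * sz a + 8) := by
    have h := hD b (b + 1) S (by omega) (hi _ (by omega)) (hi _ (by omega))
    rw [hS] at h
    refine h.mono' ?_ le_rfl
    conv_lhs => rw [e0]
    exact PAR_u1 _ _ _ _ _ _ _
  have s2 : Runs p (PAR_st S b (cd a) (cd a) [] []) (PAR_st S b (cd a) (cd (f a)) [] []) (t a) := by
    have h := hp a (PAR_st S b (cd a) (cd a) [] []) (PAR_1 _ _ _ _ _ _) (fun i hib => by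
      simp only [PAR_st]
      split_ifs with h1 h2 h3 h4
      · omega
      · omega
      · rfl
      · rfl
      · exact hi i (by omega))
    exact h.mono' (PAR_u1 _ _ _ _ _ _ _) le_rfl
  have s3 : Runs (dup b (b + 2)) (PAR_st S b (cd a) (cd (f a)) [] [])
      (PAR_st S b (cd a) (cd (f a)) (cd a) []) (8 * sz a + 8) := by
    have h := hD b (b + 2) (PAR_st S b (cd a) (cd (f a)) [] []) (by omega) (PAR_2 _ _ _ _ _ _)
      (PAR_3 _ _ _ _ _ _)
    rw [PAR_0] at h
    exact h.mono' (PAR_u2 _ _ _ _ _ _ _) le_rfl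
  have s4 : Runs q (PAR_st S b (cd a) (cd (f a)) (cd a) [])
      (PAR_st S b (cd a) (cd (f a)) (cd (g a)) []) (t' a) := by
    have h := hq a (PAR_st S b (cd a) (cd (f a)) (cd a) []) (PAR_2 _ _ _ _ _ _) (fun i hib => by
      simp only [PAR_st]
      split_ifs with h1 h2 h3 h4
      · omega
      · omega
      · omega
      · rfl
      · exact hi i (by omega))
    exact h.mono' (PAR_u2 _ _ _ _ _ _ _) le_rfl
  have s5 : Runs (clear b) (PAR_st S b (cd a) (cd (f a)) (cd (g a)) [])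
      (PAR_st S b [] (cd (f a)) (cd (g a)) []) (2 * sz a + 1) := by
    have h := Runs.clear (cd a) (PAR_st S b (cd a) (cd (f a)) (cd (g a)) []) (PAR_0 _ _ _ _ _ _)
    exact h.mono' (PAR_u0 _ _ _ _ _ _ _) le_rfl
  have s6 : Runs (pour (b + 2) (b + 3)) (PAR_st S b [] (cd (f a)) (cd (g a)) [])
      (PAR_st S b [] (cd (f a)) [] (cd (g a)).reverse) (2 * sz (g a) + 1) := by
    have h := Runs.pour (k := b + 2) (k' := b + 3) (by omega) (cd (g a))
      (PAR_st S b [] (cd (f a)) (cd (g a)) []) (PAR_2 _ _ _ _ _ _)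
    rw [PAR_u2, PAR_u3, PAR_3, List.append_nil] at h
    exact h
  have s7 : Runs (pour (b + 3) b) (PAR_st S b [] (cd (f a)) [] (cd (g a)).reverse)
      (PAR_st S b (cd (g a)) (cd (f a)) [] []) (2 * sz (g a) + 1) := by
    have h := Runs.pour (k := b + 3) (k' := b) (by omega) (cd (g a)).reverse
      (PAR_st S b [] (cd (f a)) [] (cd (g a)).reverse) (PAR_3 _ _ _ _ _ _)
    rw [PAR_u3, PAR_u0, PAR_0, List.append_nil, List.reverse_reverse, List.length_reverse] at h
    exact h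
  have s8 : Runs (pour (b + 1) (b + 3)) (PAR_st S b (cd (g a)) (cd (f a)) [] [])
      (PAR_st S b (cd (g a)) [] [] (cd (f a)).reverse) (2 * sz (f a) + 1) := by
    have h := Runs.pour (k := b + 1) (k' := b + 3) (by omega) (cd (f a))
      (PAR_st S b (cd (g a)) (cd (f a)) [] []) (PAR_1 _ _ _ _ _ _)
    rw [PAR_u1, PAR_u3, PAR_3, List.append_nil] at h
    exact h
  have s9 : Runs (pour (b + 3) b) (PAR_st S b (cd (g a)) [] [] (cd (f a)).reverse)
      (PAR_st S b (cd (f a) ++ cd (g a)) [] [] []) (2 * sz (f a) + 1) := by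
    have h := Runs.pour (k := b + 3) (k' := b) (by omega) (cd (f a)).reverse
      (PAR_st S b (cd (g a)) [] [] (cd (f a)).reverse) (PAR_3 _ _ _ _ _ _)
    rw [PAR_u3, PAR_u0, PAR_0, List.reverse_reverse, List.length_reverse] at h
    exact h
  have s10 : Runs (.push b true) (PAR_st S b (cd (f a) ++ cd (g a)) [] [] [])
      (PAR_st S b (cd (f a, g a)) [] [] []) 1 := by
    have h := Runs.push b true (PAR_st S b (cd (f a) ++ cd (g a)) [] [] [])
    rw [PAR_u0, PAR_0] at h
    exact h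
  have hall := s1.seq (s2.seq (s3.seq (s4.seq (s5.seq (s6.seq (s7.seq (s8.seq (s9.seq s10))))))))
  have hz : ∀ {δ : Type} [Rep δ] (x : δ), 1 ≤ sz x := by
    intro δ _ x
    unfold sz cd
    cases Rep.rep x <;> simp [Tr.code]
  refine hall.mono' ?_ ?_
  · conv_rhs => rw [e0]
    exact (PAR_u0 _ _ _ _ _ _ _).symm
  · have h1 := hz a
    have h2 := hz (f a)
    have h3 := hz (g a)
    show _ ≤ t a + t' a + 30 * (sz a + sz (f a) + sz (g a))
    omega

end Pool.Agent.helper81.PL
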