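import Pool.Agent.helper68.PL.SpecB

/-!
# Project pl: (MP_70a088_an, THEOREM P1), block B: DIC, dictionary of limits
-/

set_option autoImplicit false

open Complex Metric Set Filter Topology MeasureTheory
open Pool.Agent.helper98.ILF
open WP (it)
open HY (UD T S hd UN RM)
open PM

noncomputable section

namespace PL

theorem DIC_it (f : Polynomial ℂ) (j : ℕ) : Differentiable ℂ (it f j) := by
  have h : it f j = (fun z : ℂ => f.eval z)^[j] := by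
    funext z
    rfl
  rw [h]
  exact Differentiable.iterate f.differentiable j

theorem DIC_PZ (f : Polynomial ℂ) (R : ℝ) (x : ℂ) (H : ℕ) (ζ : ℂ) :
    HasDerivAt (PZ f R x H) (cr (VC f R H x) x : ℂ) ζ := by
  have h := ((hasDerivAt_id ζ).const_mul (cr (VC f R H x) x : ℂ)).const_add x
  have e : (fun y : ℂ => x + (cr (VC f R H x) x : ℂ) * id y) = PZ f R x H := by
    funext y; rfl
  rw [e, mul_one] at h
  exact h

theorem DIC_T (U : Ultrafilter ℕ) (u v : ℕ → ℂ) (u₀ v₀ : ℂ) (hu₀ : u₀ ∈ UD) (hv₀ : v₀ ∈ UD)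
    (hu : Tendsto u U (𝓝 u₀)) (hv : Tendsto v U (𝓝 v₀)) :
    Tendsto (fun j => ‖T (u j) (v j)‖) U (𝓝 ‖T u₀ v₀‖) := by
  have hne : 1 - (starRingEnd ℂ) u₀ * v₀ ≠ 0 := by
    intro h
    have h1 : (starRingEnd ℂ) u₀ * v₀ = 1 := (sub_eq_zero.1 h).symm
    have h2 : ‖u₀‖ * ‖v₀‖ = 1 := by
      have := congrArg norm h1
      rwa [norm_mul, RCLike.norm_conj, norm_one] at this
    have h3 : ‖u₀‖ < 1 := by simpa [UD] using hu₀
    have h4 : ‖v₀‖ < 1 := by simpa [UD] using hv₀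
    nlinarith [norm_nonneg u₀, norm_nonneg v₀]
  have hc : Tendsto (fun j => (starRingEnd ℂ) (u j)) U (𝓝 ((starRingEnd ℂ) u₀)) :=
    (Complex.continuous_conj.tendsto u₀).comp hu
  exact ((hv.sub hu).div (tendsto_const_nhds.sub (hc.mul hv)) hne).norm

/-- facts at one index. -/
theorem DIC_one (hTDF : TDF_stmt) (hTPM : TPM_stmt) (hVCF : VCF_stmt) (f : Polynomial ℂ) (R : ℝ)
    (hd : 2 ≤ f.natDegree) (hER : ER f R) (x : ℂ) (hx : ∀ k, x ∈ VK f R k) (H w : ℕ) (hw : w ≤ H) (ζ : ℂ)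
    (hζ : PZ f R x H ζ ∈ VC f R H x) :
    DifferentiableAt ℂ (GJ f R x H w) ζ ∧ GJ f R x H w ζ ∈ UD ∧
    DifferentiableAt ℂ (fun ζ => cx (VC f R H x) x (PZ f R x H ζ)) ζ ∧
    hdf (it f w) (VC f R H x) (VC f R (H - w) (it f w x)) (PZ f R x H ζ) =
      ‖deriv (GJ f R x H w) ζ‖ * (cr (VC f R H x) (PZ f R x H ζ) / cr (VC f R H x) x) /
        (1 - ‖GJ f R x H w ζ‖ ^ 2) ∧
    cx (VC f R H x) x (PZ f R x H ζ) ∈ UD ∧
    cr (VC f R H x) (PZ f R x H ζ) / cr (VC f R H x) x =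
      ‖deriv (fun u => (rm (VC f R H x) x u - x) / (cr (VC f R H x) x : ℂ)) (cx (VC f R H x) x (PZ f R x H ζ))‖ *
        (1 - ‖cx (VC f R H x) x (PZ f R x H ζ)‖ ^ 2) := by
  obtain ⟨hDD, hxW, hWV, hsame, -, -, hmap, -⟩ := hVCF f R hd hER H x (hx H)
  obtain ⟨hWo, hWc, hWa⟩ := hTDF _ hDD
  obtain ⟨hRM, hcr, hcx0, -, hcxd, hcxb, hrm⟩ := hWa x hxW
  have hmw := hmap w hw
  have hxw : it f w x ∈ VK f R (H - w) := by
    have h1 := (hVCF f R hd hER H x (hx H)).2.2.1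
    have h2 : it f w x ∈ VC f R (H - w) (it f w x) := hmw hxW
    by_contra h3
    have : VC f R (H - w) (it f w x) = ∅ := by
      unfold VC
      exact connectedComponentIn_eq_empty h3
    rw [this] at h2
    exact h2
  obtain ⟨hDD', hxW', -⟩ := hVCF f R hd hER (H - w) (it f w x) hxw
  obtain ⟨hWo', -, hWa'⟩ := hTDF _ hDD'
  obtain ⟨hRM', hcr', hcx0', -, hcxd', hcxb', hrm'⟩ := hWa' _ hxW'
  have hy : it f w (PZ f R x H ζ) ∈ VC f R (H - w) (it f w x) := hmw hζ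
  have hG : GJ f R x H w = fun ζ => cx (VC f R (H - w) (it f w x)) (it f w x) (it f w (PZ f R x H ζ)) := by
    funext ζ; rfl
  have hPZ := DIC_PZ f R x H ζ
  have hit : HasDerivAt (it f w) (deriv (it f w) (PZ f R x H ζ)) (PZ f R x H ζ) :=
    (DIC_it f w _).hasDerivAt
  have hcxA : HasDerivAt (cx (VC f R (H - w) (it f w x)) (it f w x))
      (deriv (cx (VC f R (H - w) (it f w x)) (it f w x)) (it f w (PZ f R x H ζ))) (it f w (PZ f R x H ζ)) :=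
    (hcxd'.differentiableAt (hWo'.mem_nhds hy)).hasDerivAt
  have hGd : HasDerivAt (GJ f R x H w)
      (deriv (cx (VC f R (H - w) (it f w x)) (it f w x)) (it f w (PZ f R x H ζ)) *
        (deriv (it f w) (PZ f R x H ζ) * (cr (VC f R H x) x : ℂ))) ζ := by
    rw [hG]
    exact hcxA.comp ζ (hit.comp ζ hPZ)
  obtain ⟨hv1, hv2, -⟩ := hcxb' _ hy
  have hGU : GJ f R x H w ζ ∈ UD := by rw [hG]; exact hv1
  -- the inverse function
  have hone : deriv (rm (VC f R (H - w) (it f w x)) (it f w x)) (GJ f R x H w ζ) *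
      deriv (cx (VC f R (H - w) (it f w x)) (it f w x)) (it f w (PZ f R x H ζ)) = 1 := by
    have h1 : HasDerivAt (rm (VC f R (H - w) (it f w x)) (it f w x))
        (deriv (rm (VC f R (H - w) (it f w x)) (it f w x)) (GJ f R x H w ζ))
        (cx (VC f R (H - w) (it f w x)) (it f w x) (it f w (PZ f R x H ζ))) := by
      have : DifferentiableAt ℂ (rm (VC f R (H - w) (it f w x)) (it f w x)) (GJ f R x H w ζ) :=
        hRM'.dif.differentiableAt (isOpen_ball.mem_nhds hGU)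
      exact this.hasDerivAt
    have h2 := h1.comp (it f w (PZ f R x H ζ)) hcxA
    have h3 : (rm (VC f R (H - w) (it f w x)) (it f w x) ∘ cx (VC f R (H - w) (it f w x)) (it f w x)) =ᶠ[𝓝 (it f w (PZ f R x H ζ))] id := by
      filter_upwards [hWo'.mem_nhds hy] with y hy'
      exact (hcxb' y hy').2.1
    have h4 := (h2.congr_of_eventuallyEq h3.symm).unique (hasDerivAt_id _)
    exact h4
  have hcrt : cr (VC f R (H - w) (it f w x)) (it f w (PZ f R x H ζ)) =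
      ‖deriv (rm (VC f R (H - w) (it f w x)) (it f w x)) (GJ f R x H w ζ)‖ * (1 - ‖GJ f R x H w ζ‖ ^ 2) := by
    have := ((hTPM _ _ _ hRM').2 _ hv1).1
    rw [hv2] at this
    exact this
  obtain ⟨hu1, hu2, -⟩ := hcxb _ hζ
  have hcrs : cr (VC f R H x) (PZ f R x H ζ) =
      ‖deriv (rm (VC f R H x) x) (cx (VC f R H x) x (PZ f R x H ζ))‖ *
        (1 - ‖cx (VC f R H x) x (PZ f R x H ζ)‖ ^ 2) := by
    have := ((hTPM _ _ _ hRM).2 _ hu1).1
    rw [hu2] at this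
    exact this
  refine ⟨hGd.differentiableAt, hGU, ?_, ?_, hu1, ?_⟩
  · exact (hcxd.differentiableAt (hWo.mem_nhds hζ)).comp ζ hPZ.differentiableAt
  · rw [hGd.deriv]
    unfold hdf
    rw [hcrt]
    have hlt : ‖GJ f R x H w ζ‖ < 1 := by simpa [UD] using hGU
    have h1 : 0 < 1 - ‖GJ f R x H w ζ‖ ^ 2 := by nlinarith [norm_nonneg (GJ f R x H w ζ)]
    have h2 := congrArg norm hone
    rw [norm_mul, norm_one] at h2
    have h3 : ‖deriv (rm (VC f R (H - w) (it f w x)) (it f w x)) (GJ f R x H w ζ)‖ ≠ 0 := by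
      intro h; rw [h, zero_mul] at h2; exact zero_ne_one h2
    rw [norm_mul, norm_mul, Complex.norm_real, Real.norm_of_nonneg hcr.le]
    have h4 : ‖deriv (cx (VC f R (H - w) (it f w x)) (it f w x)) (it f w (PZ f R x H ζ))‖ =
        1 / ‖deriv (rm (VC f R (H - w) (it f w x)) (it f w x)) (GJ f R x H w ζ)‖ := by
      rw [eq_div_iff h3, mul_comm]; exact h2
    rw [h4]
    field_simp
  · rw [hcrs]
    have h5 : deriv (fun u => (rm (VC f R H x) x u - x) / (cr (VC f R H x) x : ℂ)) (cx (VC f R H x) x (PZ f R x H ζ)) =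
        deriv (rm (VC f R H x) x) (cx (VC f R H x) x (PZ f R x H ζ)) / (cr (VC f R H x) x : ℂ) := by
      have h6 : DifferentiableAt ℂ (rm (VC f R H x) x) (cx (VC f R H x) x (PZ f R x H ζ)) :=
        hRM.dif.differentiableAt (isOpen_ball.mem_nhds hu1)
      exact ((h6.hasDerivAt.sub_const x).div_const _).deriv
    rw [h5, norm_div, Complex.norm_real, Real.norm_of_nonneg hcr.le]
    ring

theorem DIC (hFRS : FRS_stmt) (hTDF : TDF_stmt) (hTPM : TPM_stmt) (hVCF : VCF_stmt) (hTDE : V3.TDE_stmt) : DIC_stmt := by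
  intro f R δ e₀ d₀ k₀ hST x hxJ U H χ hFR w G hTL ζ ζ₀ hζ₀ hζ
  obtain ⟨hRM, hDDΩ, hcr0, hΩo, h0Ω, -, hK, hcx⟩ := hFRS f R δ e₀ d₀ k₀ hST x hxJ U H χ hFR
  have hER : ER f R := ⟨hST.R1, hST.esc⟩
  have hxV : ∀ k, x ∈ VK f R k := hST.Jv x hxJ
  have one := fun (H w : ℕ) (hw : w ≤ H) (ζ : ℂ) (hζ : PZ f R x H ζ ∈ VC f R H x) =>
    DIC_one hTDF hTPM hVCF f R hST.deg hER x hxV H w hw ζ hζ
  have hΩc : IsPreconnected (χ '' UD) := (hTDF _ hDDΩ).2.1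
  -- eventually in the component
  have hev : ∀ (ξ : ℕ → ℂ), ∀ ξ₀ ∈ χ '' UD, Tendsto ξ U (𝓝 ξ₀) →
      ∀ᶠ j in (U : Filter ℕ), PZ f R x (H j) (ξ j) ∈ VC f R (H j) x := by
    intro ξ ξ₀ hξ₀ hξ
    obtain ⟨r, hr, hrb⟩ := nhds_basis_closedBall.mem_iff.1 (hΩo.mem_nhds hξ₀)
    filter_upwards [hK _ hrb (isCompact_closedBall _ _), hξ.eventually (closedBall_mem_nhds ξ₀ hr)] with j h1 h2
    exact h1 _ h2
  -- holomorphy of the coordinate and of the maps GJ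
  have hcxE : ∀ y ∈ χ '' UD, V3.EvHol U (fun j ζ => cx (VC f R (H j) x) x (PZ f R x (H j) ζ)) y := by
    intro y hy
    obtain ⟨r, hr, hrb⟩ := nhds_basis_closedBall.mem_iff.1 (hΩo.mem_nhds hy)
    refine ⟨r, hr, ?_⟩
    filter_upwards [hK _ hrb (isCompact_closedBall _ _)] with j h1
    intro z hz
    exact (one (H j) 0 (Nat.zero_le _) z (h1 z (ball_subset_closedBall hz))).2.2.1.differentiableWithinAt
  have hGE : ∀ y ∈ χ '' UD, V3.EvHol U (fun j => GJ f R x (H j) (w j)) y := by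
    intro y hy
    obtain ⟨r, hr, hrb⟩ := nhds_basis_closedBall.mem_iff.1 (hΩo.mem_nhds hy)
    refine ⟨r, hr, ?_⟩
    filter_upwards [hK _ hrb (isCompact_closedBall _ _), hTL.le] with j h1 h2
    intro z hz
    exact (one (H j) (w j) h2 z (h1 z (ball_subset_closedBall hz))).1.differentiableWithinAt
  obtain ⟨hcxd, -, -⟩ := hTDE U _ _ _ hΩo hcxE hcx
  obtain ⟨hGd, hG', -⟩ := hTDE U _ _ _ hΩo hGE hTL.cv
  -- the coordinates converge
  have hinv : ∀ ξ₀ ∈ χ '' UD, Function.invFunOn χ UD ξ₀ ∈ UD ∧ χ (Function.invFunOn χ UD ξ₀) = ξ₀ := fun ξ₀ h =>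
    ⟨Function.invFunOn_mem h, Function.invFunOn_eq h⟩
  have hcu : ∀ (ξ : ℕ → ℂ), ∀ ξ₀ ∈ χ '' UD, Tendsto ξ U (𝓝 ξ₀) →
      Tendsto (fun j => cx (VC f R (H j) x) x (PZ f R x (H j) (ξ j))) U (𝓝 (Function.invFunOn χ UD ξ₀)) := by
    intro ξ ξ₀ hξ₀ hξ
    refine hcx.tendsto_comp (g := ξ) (x := ξ₀) (hcxd.continuousOn ξ₀ hξ₀) hξ₀ ?_
    exact tendsto_nhdsWithin_iff.2 ⟨hξ, hξ.eventually (hΩo.mem_nhds hξ₀)⟩
  -- the frames
  have hχE : ∀ y ∈ UD, V3.EvHol U (fun j u => (rm (VC f R (H j) x) x u - x) / (cr (VC f R (H j) x) x : ℂ)) y := by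
    intro y hy
    obtain ⟨r, hr, hrb⟩ := nhds_basis_ball.mem_iff.1 (isOpen_ball.mem_nhds hy)
    refine ⟨r, hr, Eventually.of_forall fun j => ?_⟩
    have hD := (hVCF f R hST.deg hER (H j) x (hxV _))
    have hR := ((hTDF _ hD.1).2.2 x hD.2.1).1
    exact ((hR.dif.mono hrb).sub_const x).div_const _
  obtain ⟨hχd, hχ', -⟩ := hTDE U _ _ _ isOpen_ball hχE hFR.cv
  have hcrc : ∀ (ξ : ℕ → ℂ), ∀ ξ₀ ∈ χ '' UD, Tendsto ξ U (𝓝 ξ₀) →
      Tendsto (fun j => cr (VC f R (H j) x) (PZ f R x (H j) (ξ j)) / cr (VC f R (H j) x) x) U (𝓝 (cr (χ '' UD) ξ₀)) := by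
    intro ξ ξ₀ hξ₀ hξ
    obtain ⟨hm, he⟩ := hinv ξ₀ hξ₀
    have h1 := hcu ξ ξ₀ hξ₀ hξ
    have h2 : Tendsto (fun j => deriv (fun u => (rm (VC f R (H j) x) x u - x) / (cr (VC f R (H j) x) x : ℂ))
        (cx (VC f R (H j) x) x (PZ f R x (H j) (ξ j)))) U (𝓝 (deriv χ (Function.invFunOn χ UD ξ₀))) := by
      refine hχ'.tendsto_comp (x := Function.invFunOn χ UD ξ₀) ?_ hm ?_
      · have h3 : DifferentiableOn ℂ (deriv χ) UD := hFR.dif.deriv isOpen_ball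
        exact h3.continuousOn _ hm
      · exact tendsto_nhdsWithin_iff.2 ⟨h1, h1.eventually (isOpen_ball.mem_nhds hm)⟩
    have h3 := ((hTPM _ _ _ hRM).2 _ hm).1
    rw [he] at h3
    rw [h3]
    refine Tendsto.congr' ?_ (h2.norm.mul (tendsto_const_nhds.sub (h1.norm.pow 2)))
    filter_upwards [hev ξ ξ₀ hξ₀ hξ] with j hj
    exact (one (H j) 0 (Nat.zero_le _) (ξ j) hj).2.2.2.2.2.symm
  have hGc : Tendsto (fun j => GJ f R x (H j) (w j) (ζ j)) U (𝓝 (G ζ₀)) := by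
    refine hTL.cv.tendsto_comp (x := ζ₀) (hGd.continuousOn ζ₀ hζ₀) hζ₀ ?_
    exact tendsto_nhdsWithin_iff.2 ⟨hζ, hζ.eventually (hΩo.mem_nhds hζ₀)⟩
  -- G maps into the disc
  have hGle : ∀ y ∈ χ '' UD, ‖G y‖ ≤ 1 := by
    intro y hy
    have h1 : Tendsto (fun j => GJ f R x (H j) (w j) y) U (𝓝 (G y)) := hTL.cv.tendsto_at hy
    refine le_of_tendsto h1.norm ?_
    filter_upwards [hev (fun _ => y) y hy tendsto_const_nhds, hTL.le] with j hj h2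
    have h3 := (one (H j) (w j) h2 y hj).2.1
    have h4 : ‖GJ f R x (H j) (w j) y‖ < 1 := by simpa [UD] using h3
    exact h4.le
  have hG0 : G 0 = 0 := by
    have h1 : Tendsto (fun j => GJ f R x (H j) (w j) 0) U (𝓝 (G 0)) := hTL.cv.tendsto_at h0Ω
    refine tendsto_nhds_unique h1 (Tendsto.congr' ?_ tendsto_const_nhds)
    filter_upwards [hTL.le] with j hj
    have hD := (hVCF f R hST.deg hER (H j) x (hxV _))
    have h2 : it f (w j) x ∈ VC f R (H j - w j) (it f (w j) x) := hD.2.2.2.2.2.2.1 (w j) hj hD.2.1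
    have h3 : it f (w j) x ∈ VK f R (H j - w j) := by
      by_contra h3
      have : VC f R (H j - w j) (it f (w j) x) = ∅ := by
        unfold VC
        exact connectedComponentIn_eq_empty h3
      rw [this] at h2
      exact h2
    have hD' := hVCF f R hST.deg hER (H j - w j) _ h3
    have h4 := ((hTDF _ hD'.1).2.2 _ hD'.2.1).2.2.1
    unfold GJ PZ
    rw [mul_zero, add_zero, h4]
  have hGlt : ‖G ζ₀‖ < 1 := by
    by_contra hcon
    have h1 : ‖G ζ₀‖ = 1 := le_antisymm (hGle ζ₀ hζ₀) (not_lt.1 hcon)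
    have h2 : IsMaxOn (norm ∘ G) (χ '' UD) ζ₀ := by
      intro y hy
      show ‖G y‖ ≤ ‖G ζ₀‖
      rw [h1]
      exact hGle y hy
    have h3 := Complex.eqOn_of_isPreconnected_of_isMaxOn_norm hΩc hΩo hGd hζ₀ h2 h0Ω
    rw [hG0] at h3
    have h4 : G ζ₀ = 0 := h3.symm
    rw [h4, norm_zero] at h1
    exact zero_ne_one h1
  have hG'c : Tendsto (fun j => deriv (GJ f R x (H j) (w j)) (ζ j)) U (𝓝 (deriv G ζ₀)) := by
    refine hG'.tendsto_comp (x := ζ₀) ((hGd.deriv hΩo).continuousOn ζ₀ hζ₀) hζ₀ ?_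
    exact tendsto_nhdsWithin_iff.2 ⟨hζ, hζ.eventually (hΩo.mem_nhds hζ₀)⟩
  refine ⟨hev ζ ζ₀ hζ₀ hζ, hcrc ζ ζ₀ hζ₀ hζ, hGc, ?_, ?_⟩
  · have hne : 1 - ‖G ζ₀‖ ^ 2 ≠ 0 := by
      have : 0 < 1 - ‖G ζ₀‖ ^ 2 := by nlinarith [norm_nonneg (G ζ₀)]
      exact this.ne'
    have h1 := (hG'c.norm.mul (hcrc ζ ζ₀ hζ₀ hζ)).div (tendsto_const_nhds.sub (hGc.norm.pow 2)) hne
    refine Tendsto.congr' ?_ h1
    filter_upwards [hev ζ ζ₀ hζ₀ hζ, hTL.le] with j hj h2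
    exact (one (H j) (w j) h2 (ζ j) hj).2.2.2.1.symm
  · intro ζ' ζ₀' hζ₀' hζ'
    obtain ⟨hm, he⟩ := hinv ζ₀ hζ₀
    obtain ⟨hm', he'⟩ := hinv ζ₀' hζ₀'
    have h1 := DIC_T U _ _ _ _ hm hm' (hcu ζ ζ₀ hζ₀ hζ) (hcu ζ' ζ₀' hζ₀' hζ')
    have h2 := ((hTPM _ _ _ hRM).2 _ hm).2 _ hm'
    rw [he, he'] at h2
    rw [h2]
    refine Tendsto.congr' ?_ h1
    filter_upwards [hev ζ ζ₀ hζ₀ hζ, hev ζ' ζ₀' hζ₀' hζ'] with j hj hj'
    have hD := (hVCF f R hST.deg hER (H j) x (hxV _))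
    obtain ⟨hR, -, -, -, -, hcxb, -⟩ := (hTDF _ hD.1).2.2 x hD.2.1
    obtain ⟨hu1, hu2, -⟩ := hcxb _ hj
    obtain ⟨hv1, hv2, -⟩ := hcxb _ hj'
    have h3 := ((hTPM _ _ _ hR).2 _ hu1).2 _ hv1
    rw [hu2, hv2] at h3
    exact h3.symm

end PL
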