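import Pool.Agent.helper94.PL.Spec

set_option autoImplicit false

open Complex Metric Set Filter Topology MeasureTheory MPS
open Pool.Agent.helper16.Multibrot

noncomputable section

namespace PLY

theorem PLA (h1 : AL1_stmt) (h2 : AL2_stmt) : PLA_stmt := by
  intro Θ G L μ hL hμ hG hdis
  have ha : 0 < Real.log ‖μ‖ := Real.log_pos hμ
  have hpi := Real.pi_pos
  have hpos : (0 : ℝ) < ‖μ‖ := by linarith
  have hA : ∀ θ ∈ Θ, ENNReal.ofReal (Real.pi * (Real.log ‖μ‖) ^ 2) ≤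
      ENNReal.ofReal L * ∫⁻ ζ in Rc L, ENNReal.ofReal (‖deriv (G θ) ζ / G θ ζ‖ ^ 2) := by
    intro θ hθ
    refine h1 L (Real.log ‖μ‖) (G θ) hL ha (hG θ hθ).1 ?_
    intro ζ hζ
    refine ⟨((hG θ hθ).2 ζ hζ).1, ?_⟩
    rw [((hG θ hθ).2 ζ hζ).2, norm_mul, Real.exp_log hpos]
  have hB := h2 Θ G L μ hL hμ hG hdis
  have hC : ∑ θ ∈ Θ, ENNReal.ofReal (Real.pi * (Real.log ‖μ‖) ^ 2) ≤
      ENNReal.ofReal L * ENNReal.ofReal (2 * Real.pi * Real.log ‖μ‖) := by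
    refine (Finset.sum_le_sum hA).trans ?_
    rw [← Finset.mul_sum]
    exact mul_le_mul_right hB _
  rw [Finset.sum_const, nsmul_eq_mul] at hC
  have hD : ENNReal.ofReal ((Θ.card : ℝ) * (Real.pi * (Real.log ‖μ‖) ^ 2)) ≤
      ENNReal.ofReal (L * (2 * Real.pi * Real.log ‖μ‖)) := by
    rw [ENNReal.ofReal_mul (Nat.cast_nonneg _), ENNReal.ofReal_natCast, ENNReal.ofReal_mul hL.le]
    exact hC
  have hE : (Θ.card : ℝ) * (Real.pi * (Real.log ‖μ‖) ^ 2) ≤ L * (2 * Real.pi * Real.log ‖μ‖) := by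
    refine (ENNReal.ofReal_le_ofReal_iff ?_).1 hD
    positivity
  have hF : ((Θ.card : ℝ) * Real.log ‖μ‖) * (Real.pi * Real.log ‖μ‖)
      ≤ (2 * L) * (Real.pi * Real.log ‖μ‖) := by
    nlinarith [hE]
  exact le_of_mul_le_mul_right hF (by positivity)

end PLY
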